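import Pool.Agent.U486.SF.Fin4

/-!
# The volume of the four-sphere with curvature between `-δ` and `1`

Let `R` be the curvature tensor at a point of a Riemannian four-manifold with all sectional
curvatures in `[-δ, 1]`, `0 ≤ δ ≤ 1`, and let `E` be the Gauss-Bonnet-Chern integrand, whose value
for curvature one is `3 / (4 π²)`. Then

`E ≤ 3 / (4 π²) * max 1 ((5 δ² + 4 δ + 8) / 9)`,

and this is attained for every `δ`. The maximum is `1` for `δ ≤ 1 / 5`, and for `δ < 1 / 5` only the
curvature tensor of constant curvature one gives the value `3 / (4 π²)`. For `δ = 1` the factor is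
`17 / 9`.

By the Gauss-Bonnet-Chern theorem a metric on the four-sphere with curvature in `[-1 / 5, 1]` has
volume at least `8 π² / 3`, the volume of the round metric, and a metric with curvature in `[-1, 1]`
has volume at least `24 π² / 17`.

Proof. On two-forms, decomposed into self-dual and anti-self-dual ones, let the curvature operator
have the diagonal blocks `A`, `C` and the mixed block `B`. Then `E` is `3 / (4 π²)` times
`(|A|² + |C|² - 2 |B|²) / 6`, and `tr A = tr C = τ`. The bounds of the curvature give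
`-2 δ ≤ a + c ≤ 2` for the eigenvalues `a` of `A` and `c` of `C`. If `S` is the sum of the lengths of
the ranges of the two spectra, then `|τ| ≤ 3 - S / 2`, `S ≤ 2 (1 + δ)` and
`|A|² + |C|² ≤ 2 (τ² + S²) / 3`.
-/

namespace Pool.Agent.Results.MP_33f2b9_gt.PinchedDimFour

open MeasureTheory Pool.Agent.U486.SF
open Pool.Agent.W666.GB (AlgCurv SecIn gbc roundGB CurvField)
open Pool.Agent.W669.HD (unitT)

/-- The integrand and the volume in dimension four for curvature between `-δ` and `1`. -/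
theorem result :
    -- the bound at a point
    (∀ (V : Type) [NormedAddCommGroup V] [InnerProductSpace ℝ V]
      (e : OrthonormalBasis (Fin 2 × Bool) ℝ V) (R : V → V → V → V → ℝ) (δ : ℝ),
      AlgCurv R → 0 ≤ δ → δ ≤ 1 → SecIn R (-δ) 1 →
        gbc e R ≤ 3 / (4 * Real.pi ^ 2) * max 1 ((5 * δ ^ 2 + 4 * δ + 8) / 9)) ∧
    -- the bound is attained
    (∀ (V : Type) [NormedAddCommGroup V] [InnerProductSpace ℝ V]
      (e : OrthonormalBasis (Fin 2 × Bool) ℝ V) (δ : ℝ), 0 ≤ δ → δ ≤ 1 →
      ∃ R : V → V → V → V → ℝ, AlgCurv R ∧ SecIn R (-δ) 1 ∧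
        gbc e R = 3 / (4 * Real.pi ^ 2) * max 1 ((5 * δ ^ 2 + 4 * δ + 8) / 9)) ∧
    -- the case of equality for `δ < 1 / 5`
    (∀ (V : Type) [NormedAddCommGroup V] [InnerProductSpace ℝ V]
      (e : OrthonormalBasis (Fin 2 × Bool) ℝ V) (R : V → V → V → V → ℝ) (δ : ℝ),
      AlgCurv R → 0 ≤ δ → δ < 1 / 5 → SecIn R (-δ) 1 → gbc e R = 3 / (4 * Real.pi ^ 2) →
        ∀ x y z w, R x y z w = unitT x y z w) ∧
    -- volume and integral
    (∀ (M : Type) [MeasurableSpace M] (μ : Measure M) [IsFiniteMeasure μ] (K : CurvField 2 M)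
      (δ : ℝ), 0 ≤ δ → δ ≤ 1 → (∀ p, SecIn (K.R p) (-δ) 1) → Integrable K.gb μ →
        4 * Real.pi ^ 2 / 3 * ∫ p, K.gb p ∂μ ≤
          max 1 ((5 * δ ^ 2 + 4 * δ + 8) / 9) * μ.real Set.univ) ∧
    -- the case of the sphere
    (∀ (M : Type) [MeasurableSpace M] (μ : Measure M) [IsFiniteMeasure μ] (K : CurvField 2 M),
      Integrable K.gb μ → ∫ p, K.gb p ∂μ = 2 →
        ((∀ p, SecIn (K.R p) (-1) 1) → 24 * Real.pi ^ 2 / 17 ≤ μ.real Set.univ) ∧
        ((∀ p, SecIn (K.R p) (-(1 / 5)) 1) → 8 * Real.pi ^ 2 / 3 ≤ μ.real Set.univ) ∧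
        ∀ δ : ℝ, 0 ≤ δ → δ < 1 / 5 → (∀ p, SecIn (K.R p) (-δ) 1) →
          μ.real Set.univ = 8 * Real.pi ^ 2 / 3 →
            ∀ᵐ p ∂μ, ∀ x y z w, K.R p x y z w = unitT x y z w) := by
  have hπ := Real.pi_pos
  have hb : ∀ (M : Type) [MeasurableSpace M] (μ : Measure M) [IsFiniteMeasure μ]
      (K : CurvField 2 M) (δ : ℝ), 0 ≤ δ → δ ≤ 1 → (∀ p, SecIn (K.R p) (-δ) 1) →
      Integrable K.gb μ → 4 * Real.pi ^ 2 / 3 * ∫ p, K.gb p ∂μ ≤
          max 1 ((5 * δ ^ 2 + 4 * δ + 8) / 9) * μ.real Set.univ := by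
    intro M _ μ _ K δ h0 h1 hs hi
    have h2 : ∫ p, K.gb p ∂μ ≤
        ∫ _ : M, roundGB 2 1 * max 1 ((5 * δ ^ 2 + 4 * δ + 8) / 9) ∂μ :=
      integral_mono hi (integrable_const _) fun p => gbc_le (K.e p) (K.curv p) h0 h1 (hs p)
    rw [integral_const, smul_eq_mul, roundGB_two] at h2
    have h3 : 0 ≤ 4 * Real.pi ^ 2 / 3 := by positivity
    refine (mul_le_mul_of_nonneg_left h2 h3).trans (le_of_eq ?_)
    field_simp
  refine ⟨?_, ?_, ?_, hb, ?_⟩
  · intro V _ _ e R δ hR h0 h1 hs
    rw [← roundGB_two]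
    exact gbc_le e hR h0 h1 hs
  · intro V _ _ e δ h0 _
    rw [← roundGB_two]
    exact sharp e h0
  · intro V _ _ e R δ hR h0 h1 hs he
    exact rigid e hR h0 h1 hs (by rw [he, roundGB_two])
  · intro M _ μ _ K hi h2
    refine ⟨fun hs => ?_, fun hs => ?_, fun δ h0 h1 hs hv => ?_⟩
    · have h := hb M μ K 1 zero_le_one le_rfl hs hi
      rw [h2, max_eq_right (by norm_num)] at h
      linarith
    · have h := hb M μ K (1 / 5) (by norm_num) (by norm_num) hs hi
      rw [h2, max_eq_left (by norm_num)] at h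
      linarith
    · have hle : ∀ p, 0 ≤ roundGB 2 1 - K.gb p := by
        intro p
        have h := gbc_le (K.e p) (K.curv p) h0 (by linarith) (hs p)
        rw [max_eq_left (by nlinarith), mul_one] at h
        exact sub_nonneg.mpr h
      have hint : Integrable (fun p => roundGB 2 1 - K.gb p) μ := (integrable_const _).sub hi
      have hz : ∫ p, (roundGB 2 1 - K.gb p) ∂μ = 0 := by
        rw [integral_sub (integrable_const _) hi, integral_const, smul_eq_mul, h2, hv,
          roundGB_two]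
        field_simp
        ring
      have h5 := (integral_eq_zero_iff_of_nonneg hle hint).mp hz
      filter_upwards [h5] with p hp
      have hp' : K.gb p = roundGB 2 1 := by
        simp only [Pi.zero_apply] at hp
        linarith
      exact rigid (K.e p) (K.curv p) h0 h1 (hs p) hp'

end Pool.Agent.Results.MP_33f2b9_gt.PinchedDimFour
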